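import Mathlib

set_option autoImplicit false

namespace Pool.Agent.Results.MP_d3b762_co.NoCoincidence

/-- The first exponentiation on `βℕ`, `ℕ = {1, 2, 3, …}`: a set `A` belongs to `E1 p q` if and only
if `{n | {m | n ^ m ∈ A} ∈ q} ∈ p`. -/
def E1 (p q : Ultrafilter ℕ+) : Ultrafilter ℕ+ :=
  p.bind fun n => q.map fun m => n ^ (m : ℕ)

/-- The second exponentiation on `βℕ`: a set `A` belongs to `E2 p q` if and only if
`{n | {m | m ^ n ∈ A} ∈ q} ∈ p`. -/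
def E2 (p q : Ultrafilter ℕ+) : Ultrafilter ℕ+ :=
  p.bind fun n => q.map fun m => m ^ (n : ℕ)

theorem mem_E1 (p q : Ultrafilter ℕ+) (A : Set ℕ+) :
    A ∈ E1 p q ↔ {n : ℕ+ | {m : ℕ+ | n ^ (m : ℕ) ∈ A} ∈ q} ∈ p := Iff.rfl

theorem mem_E2 (p q : Ultrafilter ℕ+) (A : Set ℕ+) :
    A ∈ E2 p q ↔ {n : ℕ+ | {m : ℕ+ | m ^ (n : ℕ) ∈ A} ∈ q} ∈ p := Iff.rfl

/-- Towers of twos with top exponent `c`. -/
def S (c : ℕ) : ℕ → ℕ
  | 0 => c
  | k + 1 => 2 ^ S c k

theorem S_lt (c k : ℕ) : S c k < S c (k + 1) := Nat.lt_two_pow_self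

theorem S_mono (c : ℕ) : StrictMono (S c) := strictMono_nat_of_lt_succ (S_lt c)

theorem S_ne (a b : ℕ) : S 1 a ≠ S 3 b := by
  induction b generalizing a with
  | zero =>
    intro h
    change S 1 a = 3 at h
    rcases a with _ | _ | a
    · simp [S] at h
    · simp [S] at h
    · have h4 : S 1 2 ≤ S 1 (a + 2) := (S_mono 1).monotone (by omega)
      have h2 : S 1 2 = 4 := rfl
      have h' : S 1 (a + 2) = 3 := h
      omega
  | succ b ih =>
    cases a with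
    | zero =>
      intro h
      have : S 3 0 ≤ S 3 (b + 1) := (S_mono 3).monotone (by omega)
      simp only [S] at this h
      omega
    | succ a =>
      intro h
      exact ih a (Nat.pow_right_injective le_rfl h)

theorem two_mul_le {x y : ℕ} (h : 2 ^ x < 2 ^ y) : 2 * 2 ^ x ≤ 2 ^ y := by
  have h1 : x < y := (Nat.pow_lt_pow_iff_right (by norm_num)).1 h
  calc 2 * 2 ^ x = 2 ^ (x + 1) := by ring
    _ ≤ 2 ^ y := Nat.pow_le_pow_right (by norm_num) h1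

theorem pow_pow_lt {m N L x y : ℕ} (hN : N ≤ 2 ^ L) (h1 : 2 ^ 2 ^ x ≤ m ^ N)
    (h2 : m < 2 ^ 2 ^ y) : x < L + y := by
  have hN0 : N ≠ 0 := by
    rintro rfl
    rw [pow_zero] at h1
    have : 2 ≤ 2 ^ 2 ^ x := by
      calc 2 = 2 ^ 1 := rfl
        _ ≤ _ := Nat.pow_le_pow_right (by norm_num) (Nat.one_le_two_pow)
    omega
  have h3 : 2 ^ 2 ^ x < 2 ^ (2 ^ y * N) := by
    rw [pow_mul]
    exact h1.trans_lt (Nat.pow_lt_pow_left h2 hN0)
  have h4 := (Nat.pow_lt_pow_iff_right (a := 2) (by norm_num)).1 h3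
  have h5 : 2 ^ x < 2 ^ (L + y) := by
    calc 2 ^ x < 2 ^ y * N := h4
      _ ≤ 2 ^ y * 2 ^ L := Nat.mul_le_mul_left _ hN
      _ = 2 ^ (L + y) := by rw [← pow_add, add_comm]
  exact (Nat.pow_lt_pow_iff_right (by norm_num)).1 h5

/-- the two towers are far apart -/
theorem far_apart {m N L j i : ℕ} (hL : 3 ≤ L) (hN : N ≤ 2 ^ L) (hm : 2 ^ 2 ^ L ≤ m)
    (h1 : m < S 1 j) (h2 : S 1 j ≤ m ^ N) (h3 : m < S 3 i) (h4 : S 3 i ≤ m ^ N) : False := by
  have hm16 : 2 ^ 2 ^ 3 ≤ m := by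
    refine le_trans ?_ hm
    exact Nat.pow_le_pow_right (by norm_num) (Nat.pow_le_pow_right (by norm_num) hL)
  rcases j with _ | _ | a
  · simp [S] at h1; omega
  · simp [S] at h1; omega
  rcases i with _ | _ | b
  · simp [S] at h3; omega
  · simp [S] at h3; omega
  change m < 2 ^ 2 ^ S 1 a at h1
  change 2 ^ 2 ^ S 1 a ≤ _ at h2
  change m < 2 ^ 2 ^ S 3 b at h3
  change 2 ^ 2 ^ S 3 b ≤ _ at h4
  have hx : L < S 1 a := by
    have := hm.trans_lt h1
    exact (Nat.pow_lt_pow_iff_right (a := 2) (by norm_num)).1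
      ((Nat.pow_lt_pow_iff_right (a := 2) (by norm_num)).1 this)
  have hy : L < S 3 b := by
    have := hm.trans_lt h3
    exact (Nat.pow_lt_pow_iff_right (a := 2) (by norm_num)).1
      ((Nat.pow_lt_pow_iff_right (a := 2) (by norm_num)).1 this)
  have k1 := pow_pow_lt hN h2 h3
  have k2 := pow_pow_lt hN h4 h1
  have hne := S_ne a b
  rcases a with _ | a
  · simp [S] at hx; omega
  rcases b with _ | b
  · simp [S] at hy; omega
  change L < 2 ^ S 1 a at hx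
  change L < 2 ^ S 3 b at hy
  change 2 ^ S 1 a < L + 2 ^ S 3 b at k1
  change 2 ^ S 3 b < L + 2 ^ S 1 a at k2
  change 2 ^ S 1 a ≠ 2 ^ S 3 b at hne
  rcases lt_or_gt_of_ne hne with h | h
  · have := two_mul_le h
    omega
  · have := two_mul_le h
    omega

theorem eventually_ge {q : Ultrafilter ℕ+} (hq : ∀ n, q ≠ pure n) (B : ℕ) :
    ∀ᶠ m : ℕ+ in (q : Filter ℕ+), B ≤ (m : ℕ) := by
  by_contra h
  have h1 : {m : ℕ+ | B ≤ (m : ℕ)}ᶜ ∈ q := Ultrafilter.compl_mem_iff_notMem.2 h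
  have hfin : ({m : ℕ+ | B ≤ (m : ℕ)}ᶜ).Finite := by
    refine Set.Finite.of_finite_image (f := fun m : ℕ+ => (m : ℕ)) ?_ (PNat.coe_injective.injOn)
    refine (Set.finite_lt_nat B).subset ?_
    rintro _ ⟨m, hm, rfl⟩
    simpa using hm
  obtain ⟨x, _, hx⟩ := Ultrafilter.eq_pure_of_finite_mem hfin h1
  exact hq x hx

/-- for almost all `m` no member of the tower lies between `m` and `m ^ n` -/
def Avoids (q : Ultrafilter ℕ+) (c : ℕ) : Prop :=
  ∀ n : ℕ, ∀ᶠ m : ℕ+ in (q : Filter ℕ+), ∀ j : ℕ, (m : ℕ) < S c j → (m : ℕ) ^ n < S c j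

theorem avoids (q : Ultrafilter ℕ+) (hq : ∀ n, q ≠ pure n) : Avoids q 1 ∨ Avoids q 3 := by
  by_contra hcon
  rw [not_or] at hcon
  obtain ⟨h1, h3⟩ := hcon
  unfold Avoids at h1 h3
  push Not at h1 h3
  obtain ⟨n, hn⟩ := h1
  obtain ⟨k, hk⟩ := h3
  have hn' : ∀ᶠ m : ℕ+ in (q : Filter ℕ+), ∃ j, (m : ℕ) < S 1 j ∧ S 1 j ≤ (m : ℕ) ^ n := by
    simpa using hn
  have hk' : ∀ᶠ m : ℕ+ in (q : Filter ℕ+), ∃ j, (m : ℕ) < S 3 j ∧ S 3 j ≤ (m : ℕ) ^ k := by
    simpa using hk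
  obtain ⟨L, hL3, hLn⟩ : ∃ L, 3 ≤ L ∧ max n k ≤ 2 ^ L :=
    ⟨max n k + 3, by omega, (Nat.lt_two_pow_self).le.trans
      (Nat.pow_le_pow_right (by norm_num) (by omega))⟩
  obtain ⟨m, ⟨hm1, hm2⟩, hm3⟩ := ((hn'.and hk').and (eventually_ge hq (2 ^ 2 ^ L))).exists
  obtain ⟨j, hj1, hj2⟩ := hm1
  obtain ⟨i, hi1, hi2⟩ := hm2
  have hmpos : 0 < (m : ℕ) := m.pos
  exact far_apart (N := max n k) hL3 hLn hm3 hj1
    (hj2.trans (Nat.pow_le_pow_right hmpos (le_max_left _ _))) hi1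
    (hi2.trans (Nat.pow_le_pow_right hmpos (le_max_right _ _)))

/-- the even blocks of the tower -/
def Even' (c : ℕ) : Set ℕ+ := {x | ∃ k, Even k ∧ S c k ≤ (x : ℕ) ∧ (x : ℕ) < S c (k + 1)}

theorem block_unique {c x k k' : ℕ} (h1 : S c k ≤ x) (h2 : x < S c (k + 1)) (h1' : S c k' ≤ x)
    (h2' : x < S c (k' + 1)) : k = k' := by
  have a := (S_mono c).lt_iff_lt.1 (h1.trans_lt h2')
  have b := (S_mono c).lt_iff_lt.1 (h1'.trans_lt h2)
  omega

theorem exists_block {c x : ℕ} (h : S c 0 ≤ x) : ∃ k, S c k ≤ x ∧ x < S c (k + 1) := by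
  have hex : ∃ k, x < S c k := ⟨x + 1, (Nat.lt_succ_self x).trans_le ((S_mono c).id_le (x + 1))⟩
  classical
  have hs := Nat.find_spec hex
  have hmin := fun k => @Nat.find_min _ _ hex k
  set k := Nat.find hex with hk
  cases hk' : k with
  | zero => rw [hk'] at hs; omega
  | succ l =>
    refine ⟨l, ?_, by rw [← hk']; exact hs⟩
    have := hmin l (by omega)
    omega

theorem mem_even {c k : ℕ} {x : ℕ+} (h1 : S c k ≤ (x : ℕ)) (h2 : (x : ℕ) < S c (k + 1)) :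
    x ∈ Even' c ↔ Even k := by
  constructor
  · rintro ⟨k', he, h1', h2'⟩
    rwa [block_unique h1 h2 h1' h2']
  · intro he
    exact ⟨k, he, h1, h2⟩

/-- `m ^ n` lies in the same block as `m`, and `n ^ m` in the next one -/
theorem blocks {q : Ultrafilter ℕ+} (hq : ∀ n, q ≠ pure n) {c : ℕ} (h : Avoids q c) (n : ℕ+) :
    (∀ᶠ m : ℕ+ in (q : Filter ℕ+), (m ^ (n : ℕ) ∈ Even' c ↔ m ∈ Even' c)) ∧
    (2 ≤ (n : ℕ) → ∀ᶠ m : ℕ+ in (q : Filter ℕ+), (n ^ (m : ℕ) ∈ Even' c ↔ m ∉ Even' c)) := by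
  constructor
  · filter_upwards [h n, eventually_ge hq c] with m hm hc
    obtain ⟨k, h1, h2⟩ := exists_block (c := c) hc
    have h3 : S c k ≤ ((m ^ (n : ℕ) : ℕ+) : ℕ) := by
      rw [PNat.pow_coe]
      exact h1.trans (Nat.le_self_pow n.ne_zero _)
    have h4 : ((m ^ (n : ℕ) : ℕ+) : ℕ) < S c (k + 1) := by
      rw [PNat.pow_coe]
      exact hm _ h2
    rw [mem_even h1 h2, mem_even h3 h4]
  · intro hn
    filter_upwards [h 2, eventually_ge hq c, eventually_ge hq n] with m hm hc hnm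
    obtain ⟨k, h1, h2⟩ := exists_block (c := c) hc
    have h3 : S c (k + 1) ≤ ((n ^ (m : ℕ) : ℕ+) : ℕ) := by
      rw [PNat.pow_coe]
      calc S c (k + 1) = 2 ^ S c k := rfl
        _ ≤ 2 ^ (m : ℕ) := Nat.pow_le_pow_right (by norm_num) h1
        _ ≤ _ := Nat.pow_le_pow_left hn _
    have h4 : ((n ^ (m : ℕ) : ℕ+) : ℕ) < S c (k + 1 + 1) := by
      rw [PNat.pow_coe]
      have h5 : (m : ℕ) ^ 2 < S c (k + 1) := hm _ h2
      calc (n : ℕ) ^ (m : ℕ) ≤ (2 ^ (n : ℕ)) ^ (m : ℕ) :=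
            Nat.pow_le_pow_left (Nat.lt_two_pow_self).le _
        _ = 2 ^ ((n : ℕ) * m) := by rw [pow_mul]
        _ < 2 ^ S c (k + 1) := by
            refine Nat.pow_lt_pow_right (by norm_num) (lt_of_le_of_lt ?_ h5)
            rw [pow_two]
            exact Nat.mul_le_mul_right _ hnm
        _ = _ := rfl
    rw [mem_even h1 h2, mem_even h3 h4, Nat.even_add_one]

/-- For every nonprincipal `q` and arbitrary `p`, `p'` the ultrafilters `E1 p q` and `E2 p' q` are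
different. -/
theorem strong (p p' q : Ultrafilter ℕ+) (hq : ∀ n, q ≠ pure n) : E1 p q ≠ E2 p' q := by
  intro heq
  -- the base `1`
  by_cases hp : {n : ℕ+ | 2 ≤ (n : ℕ)} ∈ p
  · obtain ⟨c, hc⟩ : ∃ c, Avoids q c := by
      rcases avoids q hq with h | h
      · exact ⟨1, h⟩
      · exact ⟨3, h⟩
    have e1 : Even' c ∈ E1 p q ↔ (Even' c)ᶜ ∈ q := by
      rw [mem_E1]
      constructor
      · intro h
        obtain ⟨n, hn1, hn2⟩ := (Filter.inter_mem h hp : _ ∈ (p : Filter ℕ+)) |> fun h =>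
          Filter.nonempty_of_mem h
        have hn1' : {m : ℕ+ | n ^ (m : ℕ) ∈ Even' c} ∈ (q : Filter ℕ+) := hn1
        filter_upwards [hn1', (blocks hq hc n).2 hn2] with m h1 h2
        exact h2.1 h1
      · intro h
        filter_upwards [(hp : _ ∈ (p : Filter ℕ+))] with n hn
        show {m : ℕ+ | n ^ (m : ℕ) ∈ Even' c} ∈ (q : Filter ℕ+)
        filter_upwards [(h : _ ∈ (q : Filter ℕ+)), (blocks hq hc n).2 hn] with m h1 h2
        exact h2.2 h1
    have e2 : Even' c ∈ E2 p' q ↔ Even' c ∈ q := by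
      rw [mem_E2]
      constructor
      · intro h
        obtain ⟨n, hn1⟩ := Filter.nonempty_of_mem (h : _ ∈ (p' : Filter ℕ+))
        have hn1' : {m : ℕ+ | m ^ (n : ℕ) ∈ Even' c} ∈ (q : Filter ℕ+) := hn1
        show _ ∈ (q : Filter ℕ+)
        filter_upwards [hn1', (blocks hq hc n).1] with m h1 h2
        exact h2.1 h1
      · intro h
        refine Filter.mem_of_superset (Filter.univ_mem : _ ∈ (p' : Filter ℕ+)) fun n _ => ?_
        show {m : ℕ+ | m ^ (n : ℕ) ∈ Even' c} ∈ (q : Filter ℕ+)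
        filter_upwards [(h : _ ∈ (q : Filter ℕ+)), (blocks hq hc n).1] with m h1 h2
        exact h2.2 h1
    rw [heq, e2, Ultrafilter.compl_mem_iff_notMem] at e1
    tauto
  · -- `p` is principal at `1`
    have hp1 : {n : ℕ+ | n = 1} ∈ p := by
      have := Ultrafilter.compl_mem_iff_notMem.2 hp
      refine Filter.mem_of_superset (this : _ ∈ (p : Filter ℕ+)) fun n hn => ?_
      have h1 : ¬ (2 ≤ (n : ℕ)) := hn
      have h2 := n.pos
      exact PNat.coe_injective (by rw [PNat.one_coe]; omega)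
    have h1 : ({1} : Set ℕ+) ∈ E1 p q := by
      rw [mem_E1]
      refine Filter.mem_of_superset (hp1 : _ ∈ (p : Filter ℕ+)) fun n hn => ?_
      have hn' : n = 1 := hn
      show {m : ℕ+ | n ^ (m : ℕ) ∈ ({1} : Set ℕ+)} ∈ (q : Filter ℕ+)
      subst hn'
      refine Filter.mem_of_superset Filter.univ_mem fun m _ => ?_
      simp
    rw [heq, mem_E2] at h1
    obtain ⟨n, hn⟩ := Filter.nonempty_of_mem (h1 : _ ∈ (p' : Filter ℕ+))
    have hn' : {m : ℕ+ | m ^ (n : ℕ) ∈ ({1} : Set ℕ+)} ∈ (q : Filter ℕ+) := hn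
    obtain ⟨m, hm1, hm2⟩ := Filter.nonempty_of_mem (Filter.inter_mem hn' (eventually_ge hq 2))
    have h3 : m ^ (n : ℕ) = 1 := hm1
    have h4 : (m : ℕ) ^ (n : ℕ) = 1 := by
      rw [← PNat.pow_coe, h3]; rfl
    have h5 : 2 ≤ (m : ℕ) := hm2
    rcases Nat.pow_eq_one.1 h4 with h6 | h6
    · omega
    · exact n.ne_zero h6

/-- There is no nonprincipal ultrafilter `p` with `E1 p p = E2 p p`. More generally
`E1 p q ≠ E2 p' q` for all `p`, `p'` and all nonprincipal `q`. -/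
theorem result :
    (¬ ∃ p : Ultrafilter ℕ+, (∀ n, p ≠ pure n) ∧ E1 p p = E2 p p) ∧
      ∀ p p' q : Ultrafilter ℕ+, (∀ n, q ≠ pure n) → E1 p q ≠ E2 p' q :=
  ⟨fun ⟨p, hp, h⟩ => strong p p p hp h, strong⟩

end Pool.Agent.Results.MP_d3b762_co.NoCoincidence
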